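import Pool.Agent.Helper70.BRT.Spec

/-! # Module FIN: the final assembly -/

namespace Pool.Agent.Helper70.BRT

open BRTStmt

universe u

/-- A `Π¹₁` formula holds in a structure iff its arithmetical matrix does. -/
theorem FIN_matrix {φ : Form} (h : IsPi11 φ) : ∃ θ : Form, IsArith θ ∧
    ∀ (M : Type u) [Zero M] [One M] [Add M] [Mul M] [LT M] (𝒮 : Set (Set M)),
      Holds M 𝒮 φ ↔ Holds M 𝒮 θ := by
  induction h with
  | @arith φ h => exact ⟨φ, h, fun M _ _ _ _ _ 𝒮 => Iff.rfl⟩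
  | @allS φ h ih =>
    obtain ⟨θ, hθ, hh⟩ := ih
    refine ⟨θ, hθ, fun M _ _ _ _ _ 𝒮 => Iff.trans ?_ (hh M 𝒮)⟩
    constructor
    · intro h V hV v
      have h1 := h (fun i => V (i + 1)) (fun i => hV (i + 1)) v (V 0) (hV 0)
      have h2 : scons (V 0) (fun i => V (i + 1)) = V := by
        funext i
        cases i with
        | zero => rfl
        | succ i => rfl
      rw [h2] at h1
      exact h1
    · intro h V hV v X hX
      refine h (scons X V) (fun i => ?_) v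
      cases i with
      | zero => exact hX
      | succ i => exact hV i

theorem FIN_empty (M : Type u) [Zero M] [One M] [Add M] [Mul M] [LT M] (𝒮 : Set (Set M))
    (h : IsRCA0 M 𝒮) : (∅ : Set M) ∈ 𝒮 := by
  obtain ⟨X, hX⟩ := h.nonempty
  have h1 := h.comprehension (.exN (.lt .zero .zero)) (.exN (.eq .zero .zero))
    ⟨_, .lt _ _, rfl⟩ ⟨_, .eq _ _, rfl⟩ (fun _ => X) (fun _ => hX) (fun _ => 0) ?_
  · have h2 : {x : M | (Form.exN (.lt .zero .zero)).eval 𝒮 (fun _ => X) (scons x (fun _ => 0))} =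
        (∅ : Set M) := by
      refine Set.eq_empty_iff_forall_notMem.mpr fun x hx => ?_
      exact hx fun y hy => h.pminus.lt_irrefl 0 hy
    rw [h2] at h1
    exact h1
  · intro x
    constructor
    · intro hx
      exact absurd (fun y hy => h.pminus.lt_irrefl 0 hy) hx
    · intro hx
      exact absurd (fun hy => hy 0 rfl) hx

theorem st_FIN : ST_FIN.{u} := by
  intro hCOD hPRIM hCARD hITER hPMOD hMOD hSND hLS hSUPP hHIRST
  refine ⟨hHIRST, fun φ hφ hprov => ?_⟩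
  obtain ⟨θ, hθ, hm⟩ := FIN_matrix.{u} hφ
  intro M i0 i1 ia im il 𝒮 hR hB
  rw [hm M 𝒮]
  intro V hV v
  by_contra hne
  have hemp := FIN_empty M 𝒮 hR
  obtain ⟨I, rfl, rfl, rfl, rfl, rfl⟩ := hPMOD M i0 i1 ia im il hR.pminus
  obtain ⟨N, hN⟩ := hSUPP θ
  let A : ℕ → Set M := fun i => if i < N then V i else ∅
  have hA𝒮 : ∀ i, A i ∈ 𝒮 := by
    intro i
    change (if i < N then V i else ∅) ∈ 𝒮
    split_ifs
    · exact hV i
    · exact hemp
  have hA : Nice A := hSND M 𝒮 hR hB A hA𝒮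
  have hne' : ¬ θ.eval 𝒮 A v := by
    intro h
    refine hne ((hN M 𝒮 A V v fun i hi => ?_).mp h)
    change (if i < N then V i else ∅) = V i
    rw [if_pos hi]
  obtain ⟨M', I', hc, A', v', hA', hemp', hno⟩ := hLS M A hA θ hθ 𝒮 v hne'
  have hfin : ∃ m₀, ∀ m, m₀ ≤ m → A' m = ∅ := by
    refine ⟨N, fun m hm => hemp' m ?_⟩
    change (if m < N then V m else ∅) = ∅
    rw [if_neg (not_lt.mpr hm)]
  obtain ⟨bd, hbd⟩ := hCOD M' hA'.pure
  obtain ⟨pw, card, hpc⟩ := hPRIM M' hA'.pure ⟨bd, hbd⟩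
  have hcard := hCARD M' hA'.pure bd hbd pw card hpc
  obtain ⟨𝒮', h𝒮', hbrt⟩ := hITER M' bd hbd pw card hpc hcard A' hA' hfin
  obtain ⟨hr, hb⟩ := hMOD M' ⟨bd, hbd⟩ pw card hpc hcard 𝒮' ⟨_, h𝒮' 0⟩ hbrt
  exact hno 𝒮' ((hm M' 𝒮').mp (hprov M' 𝒮' hr hb) A' h𝒮' v')

end Pool.Agent.Helper70.BRT
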