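import Pool.Agent.Helper70.BRT.Spec

/-! # Module GREEDY: the finite Ramsey argument of the one-step lemma -/

namespace Pool.Agent.Helper70.BRT

universe u

/-- The invariant of the greedy construction. -/
def GREEDY_inv {M : Type u} [PModel M] (pw card : M → M) (f : M × M → Prop) (cnt : M × M → M)
    (u w D : M → M) (AA : M × M → Prop) (I₀ n₀ c₀ q r n c Q I : M) : Prop :=
  pw r ≤ card I ∧ q ≤ card Q + cnt (n, c) ∧ (∀ x, x < I → el x I → el x I₀) ∧
  n₀ ≤ n ∧ (∀ x, x < n₀ → (el x c₀ ↔ el x c)) ∧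
  (∀ y, y < n → ∀ x, x < y → el x c → el y c → ¬ f (x, y)) ∧
  (∀ j, j < I → el j I → n ≤ u j ∧ (∀ x, x < n → n₀ ≤ x → el x c → el x (D j)) ∧
    ∀ x, x < Q → el x Q → x < u j ∧ ∀ y, y < w j → AA (j, y) → f (x, y)) ∧
  (∀ y, y < Q → ∀ x, x < y → el x Q → el y Q → f (x, y))

theorem GREEDY_el {M : Type u} [PModel M] {bd : M → M} (hC : CodAPI M bd) (A : ℕ → Set M)
    {Γ : Type u} [Ctx M Γ] {F G : Γ → M} (hF : Rec A F) (hG : Rec A G) :
    RecP A (fun g => el (F g) (G g)) :=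
  RecP.comp (R := fun z : M × M => el z.1 z.2) (hC.el_rec.of_pure A) (hF.prodMk hG)

theorem GREEDY_rel {M : Type u} [PModel M] (A : ℕ → Set M) {f : M × M → Prop} (hf : RecP A f)
    {Γ : Type u} [Ctx M Γ] {F G : Γ → M} (hF : Rec A F) (hG : Rec A G) :
    RecP A (fun g => f (F g, G g)) :=
  RecP.comp (R := f) hf (hF.prodMk hG)

theorem GREEDY_rec {M : Type u} [PModel M] {bd : M → M} (hC : CodAPI M bd) {pw card : M → M}
    (hP : PrimAPI M pw card) {A : ℕ → Set M} (hA : Nice A) {f : M × M → Prop} (hf : RecP A f)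
    {cnt : M × M → M} (hcnt : Rec A cnt) {u w D : M → M} {AA : M × M → Prop} (hu : Rec A u)
    (hw : Rec A w) (hD : Rec A D) (hAA : RecP A AA) (I₀ n₀ c₀ : M) :
    RecP A (fun z : ((((M × M) × M) × M) × M) × M =>
      GREEDY_inv pw card f cnt u w D AA I₀ n₀ c₀ z.1.1.1.1.1 z.1.1.1.1.2 z.1.1.1.2 z.1.1.2 z.1.2
        z.2) := by
  have hco := hA.coll1
  have hcard := hP.card_rec.of_pure A
  have hpw := hP.pw_rec.of_pure A
  unfold GREEDY_inv
  refine RecP.and ?_ (RecP.and ?_ (RecP.and ?_ (RecP.and ?_ (RecP.and ?_ (RecP.and ?_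
    (RecP.and ?_ ?_))))))
  · exact RecP.le (hpw.comp PMap.id.fst.fst.fst.fst.snd.rec) (hcard.comp PMap.id.snd.rec)
  · exact RecP.le PMap.id.fst.fst.fst.fst.fst.rec
      (Rec.add (hcard.comp PMap.id.fst.snd.rec)
        (hcnt.comp (Rec.prodMk PMap.id.fst.fst.fst.snd.rec PMap.id.fst.fst.snd.rec)))
  · exact RecP.ball hco (t := fun z : ((((M × M) × M) × M) × M) × M => z.2) PMap.id.snd.rec
      (R := fun z x => el x z.2 → el x I₀)
      ((GREEDY_el hC A PMap.id.snd.rec PMap.id.fst.snd.rec).imp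
        (GREEDY_el hC A PMap.id.snd.rec (Rec.const I₀)))
  · exact RecP.le (Rec.const n₀) PMap.id.fst.fst.fst.snd.rec
  · exact RecP.ball hco (t := fun _ : ((((M × M) × M) × M) × M) × M => n₀) (Rec.const n₀)
      (R := fun z x => (el x c₀ ↔ el x z.1.1.2))
      ((GREEDY_el hC A PMap.id.snd.rec (Rec.const c₀)).iff
        (GREEDY_el hC A PMap.id.snd.rec PMap.id.fst.fst.fst.snd.rec))
  · refine RecP.ball hco (t := fun z : ((((M × M) × M) × M) × M) × M => z.1.1.1.2)
      PMap.id.fst.fst.fst.snd.rec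
      (R := fun z y => ∀ x, x < y → el x z.1.1.2 → el y z.1.1.2 → ¬ f (x, y)) ?_
    refine RecP.ball hco (t := fun z : (((((M × M) × M) × M) × M) × M) × M => z.2)
      PMap.id.snd.rec
      (R := fun z x => el x z.1.1.1.2 → el z.2 z.1.1.1.2 → ¬ f (x, z.2)) ?_
    exact (GREEDY_el hC A PMap.id.snd.rec PMap.id.fst.fst.fst.fst.snd.rec).imp
      ((GREEDY_el hC A PMap.id.fst.snd.rec PMap.id.fst.fst.fst.fst.snd.rec).imp
        (GREEDY_rel A hf PMap.id.snd.rec PMap.id.fst.snd.rec).not)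
  · refine RecP.ball hco (t := fun z : ((((M × M) × M) × M) × M) × M => z.2) PMap.id.snd.rec
      (R := fun z j => el j z.2 → z.1.1.1.2 ≤ u j ∧
        (∀ x, x < z.1.1.1.2 → n₀ ≤ x → el x z.1.1.2 → el x (D j)) ∧
        ∀ x, x < z.1.2 → el x z.1.2 → x < u j ∧ ∀ y, y < w j → AA (j, y) → f (x, y)) ?_
    refine (GREEDY_el hC A PMap.id.snd.rec PMap.id.fst.snd.rec).imp (RecP.and ?_ (RecP.and ?_ ?_))
    · exact RecP.le PMap.id.fst.fst.fst.fst.snd.rec (hu.comp PMap.id.snd.rec)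
    · refine RecP.ball hco (t := fun z : (((((M × M) × M) × M) × M) × M) × M => z.1.1.1.1.2)
        PMap.id.fst.fst.fst.fst.snd.rec
        (R := fun z x => n₀ ≤ x → el x z.1.1.1.2 → el x (D z.2)) ?_
      exact (RecP.le (Rec.const n₀) PMap.id.snd.rec).imp
        ((GREEDY_el hC A PMap.id.snd.rec PMap.id.fst.fst.fst.fst.snd.rec).imp
          (GREEDY_el hC A PMap.id.snd.rec (hD.comp PMap.id.fst.snd.rec)))
    · refine RecP.ball hco (t := fun z : (((((M × M) × M) × M) × M) × M) × M => z.1.1.2)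
        PMap.id.fst.fst.snd.rec
        (R := fun z x => el x z.1.1.2 → x < u z.2 ∧ ∀ y, y < w z.2 → AA (z.2, y) → f (x, y)) ?_
      refine (GREEDY_el hC A PMap.id.snd.rec PMap.id.fst.fst.fst.snd.rec).imp (RecP.and ?_ ?_)
      · exact RecP.lt PMap.id.snd.rec (hu.comp PMap.id.fst.snd.rec)
      · refine RecP.ball hco
          (t := fun z : ((((((M × M) × M) × M) × M) × M) × M) × M => w z.1.2)
          (hw.comp PMap.id.fst.snd.rec)
          (R := fun z y => AA (z.1.2, y) → f (z.2, y)) ?_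
        exact (GREEDY_rel A hAA PMap.id.fst.fst.snd.rec PMap.id.snd.rec).imp
          (GREEDY_rel A hf PMap.id.fst.snd.rec PMap.id.snd.rec)
  · refine RecP.ball hco (t := fun z : ((((M × M) × M) × M) × M) × M => z.1.2)
      PMap.id.fst.snd.rec
      (R := fun z y => ∀ x, x < y → el x z.1.2 → el y z.1.2 → f (x, y)) ?_
    refine RecP.ball hco (t := fun z : (((((M × M) × M) × M) × M) × M) × M => z.2)
      PMap.id.snd.rec
      (R := fun z x => el x z.1.1.2 → el z.2 z.1.1.2 → f (x, z.2)) ?_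
    exact (GREEDY_el hC A PMap.id.snd.rec PMap.id.fst.fst.fst.snd.rec).imp
      ((GREEDY_el hC A PMap.id.fst.snd.rec PMap.id.fst.fst.fst.snd.rec).imp
        (GREEDY_rel A hf PMap.id.snd.rec PMap.id.fst.snd.rec))

theorem GREEDY_pw_pos {M : Type u} [PModel M] {pw card : M → M}
    (hP : PrimAPI M pw card) {A : ℕ → Set M} (hA : Nice A) (n : M) : 1 ≤ pw n := by
  have hpw := hP.pw_rec.of_pure A
  refine hA.ind (fun n => 1 ≤ pw n) (RecP.le (Rec.const 1) hpw).1 ?_ ?_ n
  · rw [hP.pw_zero]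
  · intro x hx
    rw [hP.pw_succ]
    exact hx.trans le_self_add

/-- One step of the greedy construction. -/
theorem GREEDY_step {M : Type u} [PModel M] {bd : M → M} (hC : CodAPI M bd) {pw card : M → M}
    (hP : PrimAPI M pw card) (hK : CardAPI M card) {A : ℕ → Set M} (hA : Nice A)
    {f : M × M → Prop}
    {cnt : M × M → M} {u w D ty : M → M} {AA : M × M → Prop} {I₀ n₀ c₀ : M}
    (h2 : ∀ i j, el i I₀ → el j I₀ → i < j → w i ≤ u j)
    (h3 : ∀ i p, el i I₀ → AA (i, p) → u i ≤ p ∧ p < w i)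
    (h4 : ∀ i j, el i I₀ → el j I₀ → i < j → ∀ x y, AA (i, x) → AA (j, y) →
        (f (x, y) ↔ ¬ el x (D j)))
    (h5 : ∀ i j, el i I₀ → el j I₀ → i < j → ∀ p, AA (i, p) → (el j (ty i) ↔ el p (D j)))
    (h6 : ∀ i, el i I₀ → ∀ n c, n ≤ u i → Ext f n₀ c₀ n c (fun x => el x (D i)) →
        ∃ n' c', n' ≤ w i ∧ Ext f n c n' c' (fun x => AA (i, x)) ∧ cnt (n, c) < cnt (n', c'))
    {q r n c Q I : M} (hinv : GREEDY_inv pw card f cnt u w D AA I₀ n₀ c₀ q (r + 1) n c Q I) :
    ∃ n' c' Q' I', GREEDY_inv pw card f cnt u w D AA I₀ n₀ c₀ (q + 1) r n' c' Q' I' := by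
  obtain ⟨e1, e2, e3, e4, e5, e6, e7, e8⟩ := hinv
  have hB := hA.base
  have hI0 : ∀ x, el x I → el x I₀ := fun x hx => e3 x (hC.el_lt x I hx) hx
  have hpw1 := GREEDY_pw_pos hP hA r
  rw [hP.pw_succ] at e1
  -- the least element of `I`
  have hpos : 0 < card I := by
    refine lt_of_lt_of_le PModel.zero_lt_one'' (hpw1.trans (le_trans le_self_add e1))
  have hRI : RecP A (fun x : M => el x I) := GREEDY_el hC A Rec.id (Rec.const I)
  obtain ⟨i, hi, hmin⟩ := hB.lnp hRI (hK.pos I hpos)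
  have hiI0 := hI0 i hi
  obtain ⟨hni, hDi, hQi⟩ := e7 i (hC.el_lt i I hi) hi
  have hlt : ∀ j, el j I → j ≠ i → i < j := fun j hj hji =>
    lt_of_le_of_ne (not_lt.mp fun h => hmin j h hj) (Ne.symm hji)
  -- the remaining indices
  have hJ1 := hC.mk_spec A hB (fun x => el x I ∧ x ≠ i)
    (hRI.and (RecP.eq Rec.id (Rec.const i)).not) I
  have hJ2 := hC.mk_spec A hB (fun x => el x I ∧ x ≠ i ∧ el x (ty i))
    (hRI.and ((RecP.eq Rec.id (Rec.const i)).not.and (GREEDY_el hC A Rec.id (Rec.const (ty i))))) I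
  have hJ3 := hC.mk_spec A hB (fun x => el x I ∧ x ≠ i ∧ ¬ el x (ty i))
    (hRI.and ((RecP.eq Rec.id (Rec.const i)).not.and
      (GREEDY_el hC A Rec.id (Rec.const (ty i))).not)) I
  set J1 := mk I (fun x => el x I ∧ x ≠ i) with hJ1d
  set J2 := mk I (fun x => el x I ∧ x ≠ i ∧ el x (ty i)) with hJ2d
  set J3 := mk I (fun x => el x I ∧ x ≠ i ∧ ¬ el x (ty i)) with hJ3d
  have c1 : card I ≤ card J1 + 1 := by
    refine hK.remove I J1 i fun x hx => ?_
    by_cases h : x = i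
    · exact Or.inl h
    · exact Or.inr ((hJ1 x).mpr ⟨hC.el_lt x I hx, hx, h⟩)
  have c2 : card J1 ≤ card J2 + card J3 := by
    refine hK.split J1 J2 J3 fun x hx => ?_
    obtain ⟨ha, hb, hc⟩ := (hJ1 x).mp hx
    by_cases h : el x (ty i)
    · exact Or.inl ((hJ2 x).mpr ⟨ha, hb, hc, h⟩)
    · exact Or.inr ((hJ3 x).mpr ⟨ha, hb, hc, h⟩)
  -- extension of the string
  have ext : ∀ J, pw r ≤ card J → (∀ j, el j J → el j I ∧ j ≠ i) →
      (∀ j p, el j J → AA (i, p) → el p (D j)) →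
      ∃ n' c' Q' I', GREEDY_inv pw card f cnt u w D AA I₀ n₀ c₀ (q + 1) r n' c' Q' I' := by
    intro J hJc hJI hJD
    obtain ⟨n', c', hn', ⟨g1, g2, g3, g4⟩, hcnt⟩ := h6 i hiI0 n c hni
      ⟨e4, e5, fun x hx hx' hxc => hDi x hx hx' hxc, fun x y hxy hy hx' hy' => e6 y hy x hxy hx' hy'⟩
    refine ⟨n', c', Q, J, hJc, ?_, fun x _ hx => hI0 x (hJI x hx).1, e4.trans g1, ?_, ?_, ?_, e8⟩
    · calc q + 1 ≤ card Q + cnt (n, c) + 1 := by gcongr
        _ = card Q + (cnt (n, c) + 1) := add_assoc _ _ _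
        _ ≤ card Q + cnt (n', c') := by
          gcongr
          exact add_one_le_of_lt hcnt
    · intro x hx
      exact (e5 x hx).trans (g2 x (lt_of_lt_of_le hx e4))
    · intro y hy x hxy hx' hy'
      exact g4 x y hxy hy hx' hy'
    · intro j _ hj
      obtain ⟨hjI, hji⟩ := hJI j hj
      obtain ⟨k1, k2, k3⟩ := e7 j (hC.el_lt j I hjI) hjI
      refine ⟨hn'.trans (h2 i j hiI0 (hI0 j hjI) (hlt j hjI hji)), ?_, k3⟩
      intro x hx hx0 hxc
      by_cases hxn : x < n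
      · exact k2 x hxn hx0 ((g2 x hxn).mpr hxc)
      · exact hJD j x hj (g3 x hx (not_lt.mp hxn) hxc)
  by_cases hemp : ∃ p, AA (i, p)
  · by_cases hbig : pw r ≤ card J2
    · refine ext J2 hbig (fun j hj => ?_) (fun j p hj hp => ?_)
      · obtain ⟨-, ha, hb, -⟩ := (hJ2 j).mp hj
        exact ⟨ha, hb⟩
      · obtain ⟨-, ha, hb, hc⟩ := (hJ2 j).mp hj
        exact (h5 i j hiI0 (hI0 j ha) (hlt j ha hb) p hp).mp hc
    · -- add a point to the clique
      obtain ⟨p, hp⟩ := hemp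
      obtain ⟨hp1, hp2⟩ := h3 i p hiI0 hp
      have hRQ : RecP A (fun x : M => el x Q ∨ x = p) :=
        (GREEDY_el hC A Rec.id (Rec.const Q)).or (RecP.eq Rec.id (Rec.const p))
      have hQ' := hC.mk_spec A hB (fun x => el x Q ∨ x = p) hRQ (Q + p + 1)
      set Q' := mk (Q + p + 1) (fun x => el x Q ∨ x = p) with hQd
      have hQ2 : ∀ x, el x Q' ↔ el x Q ∨ x = p := by
        intro x
        rw [hQ']
        constructor
        · exact fun h => h.2
        · intro h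
          refine ⟨?_, h⟩
          rcases h with h | h
          · exact lt_add_one_iff'.mpr ((hC.el_lt x Q h).le.trans le_self_add)
          · exact lt_add_one_iff'.mpr (h.le.trans le_add_self)
      have hpQ : ¬ el p Q := fun h => absurd ((hQi p (hC.el_lt p Q h) h).1) (not_lt.mpr hp1)
      have hcardQ : card Q' = card Q + 1 := hP.card_insert Q Q' p hpQ hQ2
      refine ⟨n, c, Q', J3, ?_, ?_, ?_, e4, e5, e6, ?_, ?_⟩
      · -- the size of `J3`
        have a1 : card J2 + 1 ≤ pw r := add_one_le_of_lt (not_le.mp hbig)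
        have a2 : pw r + pw r ≤ pw r + card J3 := by
          calc pw r + pw r ≤ card I := e1
            _ ≤ card J1 + 1 := c1
            _ ≤ card J2 + card J3 + 1 := by gcongr
            _ = card J2 + 1 + card J3 := by ring
            _ ≤ pw r + card J3 := by gcongr
        exact le_of_add_le_add_left a2
      · rw [hcardQ]
        calc q + 1 ≤ card Q + cnt (n, c) + 1 := by gcongr
          _ = card Q + 1 + cnt (n, c) := by ring
      · intro x _ hx
        exact hI0 x ((hJ3 x).mp hx).2.1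
      · intro j _ hj
        obtain ⟨-, ha, hb, hc⟩ := (hJ3 j).mp hj
        have hij := hlt j ha hb
        obtain ⟨k1, k2, k3⟩ := e7 j (hC.el_lt j I ha) ha
        refine ⟨k1, k2, ?_⟩
        intro x _ hx
        rcases (hQ2 x).mp hx with h | h
        · exact k3 x (hC.el_lt x Q h) h
        · subst h
          refine ⟨lt_of_lt_of_le hp2 (h2 i j hiI0 (hI0 j ha) hij), fun y _ hAy => ?_⟩
          exact (h4 i j hiI0 (hI0 j ha) hij x y hp hAy).mpr fun hxd =>
            hc ((h5 i j hiI0 (hI0 j ha) hij x hp).mpr hxd)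
      · intro y _ x hxy hx hy
        rcases (hQ2 x).mp hx with h | h
        · rcases (hQ2 y).mp hy with h' | h'
          · exact e8 y (hC.el_lt y Q h') x hxy h h'
          · subst h'
            exact (hQi x (hC.el_lt x Q h) h).2 y hp2 hp
        · rcases (hQ2 y).mp hy with h' | h'
          · subst h
            exact absurd (hxy.trans (hQi y (hC.el_lt y Q h') h').1) (not_lt.mpr hp1)
          · rw [h, h'] at hxy
            exact absurd hxy (lt_irrefl _)
  · refine ext J1 ?_ (fun j hj => ?_) (fun j p hj hp => absurd ⟨p, hp⟩ hemp)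
    · have a2 : pw r + 1 ≤ card J1 + 1 := by
        calc pw r + 1 ≤ pw r + pw r := by gcongr
          _ ≤ card I := e1
          _ ≤ card J1 + 1 := c1
      exact le_of_add_le_add_right a2
    · obtain ⟨-, ha, hb⟩ := (hJ1 j).mp hj
      exact ⟨ha, hb⟩

theorem st_GREEDY : ST_GREEDY.{u} := by
  intro M _ bd hC pw card hP hK A hA f l hf hcl b cnt hcnt hcb u w D ty AA hu hw hD hty hAA
    I₀ n₀ c₀ hI₀ hhom h1 h2 h3 h4 h5 h6
  have hB := hA.base
  have hrec := GREEDY_rec hC hP hA hf hcnt hu hw hD hAA I₀ n₀ c₀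
  have hsig : Sig1 A (fun q : M => l + b + 1 < q ∨ ∃ r n c Q I, q + r = l + b + 1 ∧
      GREEDY_inv pw card f cnt u w D AA I₀ n₀ c₀ q r n c Q I) := by
    refine ((RecP.lt (Rec.const (l + b + 1)) Rec.id).1).or ?_
    refine Sig1.ex (R := fun q r => ∃ n c Q I, q + r = l + b + 1 ∧
      GREEDY_inv pw card f cnt u w D AA I₀ n₀ c₀ q r n c Q I) ?_
    refine Sig1.ex (R := fun (z : M × M) n => ∃ c Q I, z.1 + z.2 = l + b + 1 ∧
      GREEDY_inv pw card f cnt u w D AA I₀ n₀ c₀ z.1 z.2 n c Q I) ?_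
    refine Sig1.ex (R := fun (z : (M × M) × M) c => ∃ Q I, z.1.1 + z.1.2 = l + b + 1 ∧
      GREEDY_inv pw card f cnt u w D AA I₀ n₀ c₀ z.1.1 z.1.2 z.2 c Q I) ?_
    refine Sig1.ex (R := fun (z : ((M × M) × M) × M) Q => ∃ I, z.1.1.1 + z.1.1.2 = l + b + 1 ∧
      GREEDY_inv pw card f cnt u w D AA I₀ n₀ c₀ z.1.1.1 z.1.1.2 z.1.2 z.2 Q I) ?_
    refine Sig1.ex (R := fun (z : (((M × M) × M) × M) × M) I =>
      z.1.1.1.1 + z.1.1.1.2 = l + b + 1 ∧
      GREEDY_inv pw card f cnt u w D AA I₀ n₀ c₀ z.1.1.1.1 z.1.1.1.2 z.1.1.2 z.1.2 z.2 I) ?_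
    exact ((RecP.eq (Rec.add PMap.id.fst.fst.fst.fst.fst.rec PMap.id.fst.fst.fst.fst.snd.rec)
      (Rec.const (l + b + 1))).and hrec).1
  have key := hA.ind _ hsig ?_ ?_ (l + b + 1)
  · rcases key with h | ⟨r, n, c, Q, I, hr, -, e2, -, -, -, -, -, e8⟩
    · exact absurd h (lt_irrefl _)
    · have hQ : card Q < l := hcl Q fun x y hxy hx hy => e8 y (hC.el_lt y Q hy) x hxy hx hy
      have : card Q + cnt (n, c) < l + b + 1 := by
        calc card Q + cnt (n, c) ≤ card Q + (b + 1) := by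
              gcongr
              exact hcb _
          _ < l + (b + 1) := by gcongr
          _ = l + b + 1 := (add_assoc _ _ _).symm
      exact absurd e2 (not_le.mpr this)
  · right
    refine ⟨l + b + 1, n₀, c₀, 0, I₀, zero_add _, hI₀, zero_le, fun x _ hx => hx, le_rfl,
      fun x _ => Iff.rfl, fun y hy x hxy hx hy' => hhom x y hxy hy hx hy', ?_, ?_⟩
    · intro j _ hj
      refine ⟨(h1 j hj).1, fun x hx hx' => absurd hx (not_lt.mpr hx'), fun x hx => ?_⟩
      exact absurd hx (not_lt_zero'' x)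
    · intro y hy
      exact absurd hy (not_lt_zero'' y)
  · intro q hq
    rcases hq with h | ⟨r, n, c, Q, I, hr, hinv⟩
    · left
      exact h.trans (lt_add_one' q)
    · by_cases hr0 : r = 0
      · left
        rw [hr0, add_zero] at hr
        rw [hr]
        exact lt_add_one' _
      · right
        obtain ⟨r', rfl⟩ := exists_pred hr0
        obtain ⟨n', c', Q', I', h⟩ := GREEDY_step hC hP hK hA h2 h3 h4 h5 h6 hinv
        refine ⟨r', n', c', Q', I', ?_, h⟩
        rw [← hr]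
        ring

end Pool.Agent.Helper70.BRT
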